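import Pool.Agent.H93.Bak2

open Set

namespace Pool.Agent.Results.MP_922b34_an.Yes

/-- the unit square -/
def X : Set (ℝ × ℝ) := Icc (0 : ℝ) 1 ×ˢ Icc (0 : ℝ) 1

/-- the baker map -/
noncomputable def B (p : ℝ × ℝ) : ℝ × ℝ :=
  if p.1 < 1 / 2 then (2 * p.1, p.2 / 2) else (2 * p.1 - 1, (p.2 + 1) / 2)

/-- the survivor set: points of a two-sided orbit in the square avoiding the hole -/
def J (H : Set (ℝ × ℝ)) : Set (ℝ × ℝ) :=
  {p | ∃ o : ℤ → ℝ × ℝ, o 0 = p ∧ ∀ n, o n ∈ X ∧ o (n + 1) = B (o n) ∧ o n ∉ H}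

/-- Every convex open cycle trap of the baker map is a dimension trap. -/
theorem result (H : Set (ℝ × ℝ)) (hX : H ⊆ X) (hopen : IsOpen ((↑) ⁻¹' H : Set X))
    (hconv : Convex ℝ H)
    (htrap : ∀ p ∈ X, ∀ q : ℕ, 0 < q → B^[q] p = p → ∃ n : ℕ, B^[n] p ∈ closure H) :
    dimH (J H) = 0 := by
  obtain ⟨U, hU, hUH⟩ := isOpen_induced_iff.1 hopen
  have hH : H = U ∩ X := by
    ext p
    constructor
    · intro hp
      have : (⟨p, hX hp⟩ : X) ∈ ((↑) ⁻¹' H : Set X) := hp
      rw [← hUH] at this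
      exact ⟨this, hX hp⟩
    · intro hp
      have : (⟨p, hp.2⟩ : X) ∈ ((↑) ⁻¹' U : Set X) := hp.1
      rw [hUH] at this
      exact this
  have hcl : closure H ⊆ closure (interior H) := by
    refine closure_minimal (fun p hp => ?_) isClosed_closure
    rw [hH] at hp
    have h1 : p ∈ closure (interior X) := by
      rw [X, interior_prod_eq, closure_prod_eq, interior_Icc, closure_Ioo zero_ne_one]
      exact hp.2
    refine closure_mono ?_ (hU.inter_closure ⟨hp.1, h1⟩)
    rw [hH, interior_inter, hU.interior_eq]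
  have hT : H93.Bak.Trap (interior H) := by
    intro s q hq hs
    have ho := H93.Bak.orb_code s
    have hB : ∀ n, H93.Bak.code s (n + 1) = B (H93.Bak.code s n) := by
      intro n
      have h1 := ho.2 n
      have h2 := congrArg Prod.fst h1
      have h3 := (ho.1 (n + 1)).1.1
      simp only at h2
      cases hsn : s n
      · have h4 : (H93.Bak.code s (n + 1)).1 < 1 :=
          H93.Bak.val_lt _ (q - 1) (by
            rw [← hsn, ← hs n]; congr 1; omega)
        rw [hsn] at h1 h2
        simp only [H93.Bak.bv, Bool.false_eq_true, if_false, Int.cast_zero, sub_zero,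
          add_zero] at h1 h2
        rw [B, if_pos (by linarith), h1]
      · rw [hsn] at h1 h2
        simp only [H93.Bak.bv, if_true, Int.cast_one] at h1 h2
        rw [B, if_neg (by linarith), h1]
    have hit : ∀ n : ℕ, B^[n] (H93.Bak.code s 0) = H93.Bak.code s n := by
      intro n
      induction n with
      | zero => rfl
      | succ n ih => rw [Function.iterate_succ_apply', ih, ← hB]; rfl
    obtain ⟨n, hn⟩ := htrap (H93.Bak.code s 0) (ho.1 0) q hq (by
      rw [hit]
      simp only [H93.Bak.code]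
      congr 2 <;> funext j
      · rw [← hs (0 + j)]; congr 1; ring
      · rw [← hs (0 - 1 - j)]; congr 1; ring)
    exact ⟨n, hcl (hit n ▸ hn)⟩
  refine le_antisymm ((dimH_mono ?_).trans
    (H93.Bak.dim_zero (interior H) hconv.interior isOpen_interior hT).le) bot_le
  rintro p ⟨o, h0, h⟩
  refine ⟨o, fun n => decide (1 / 2 ≤ (o n).1), ⟨⟨fun n => (h n).1, fun n => ?_⟩,
    fun n hn => (h n).2.2 (interior_subset hn)⟩, h0⟩
  rw [(h n).2.1, B]
  beta_reduce
  by_cases h1 : (o n).1 < 1 / 2
  · rw [if_pos h1, decide_eq_false (not_le.2 h1)]; simp [H93.Bak.bv]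
  · rw [if_neg h1, decide_eq_true (not_lt.1 h1)]; simp [H93.Bak.bv]

end Pool.Agent.Results.MP_922b34_an.Yes
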